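import Pool.Agent.W91.BH.Stm

set_option autoImplicit false

open MeasureTheory
open scoped ENNReal ContDiff

namespace Pool.Agent.W834.BH

open Pool.Agent.W91.BH

lemma compactBox (n : ℕ) (l u : Fin n → ℝ) :
    IsCompact {x : E n | ∀ i, l i ≤ x i ∧ x i ≤ u i} := by
  have h : IsCompact ((EuclideanSpace.equiv (Fin n) ℝ).symm '' (Set.Icc l u)) :=
    isCompact_Icc.image (EuclideanSpace.equiv (Fin n) ℝ).symm.continuous
  have e : {x : E n | ∀ i, l i ≤ x i ∧ x i ≤ u i} =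
      (EuclideanSpace.equiv (Fin n) ℝ).symm '' (Set.Icc l u) := by
    ext x
    constructor
    · intro hx
      refine ⟨EuclideanSpace.equiv (Fin n) ℝ x, ⟨fun i => (hx i).1, fun i => (hx i).2⟩, ?_⟩
      simp
    · rintro ⟨y, hy, rfl⟩ i
      exact ⟨hy.1 i, hy.2 i⟩
  rw [e]; exact h

lemma bounds (n M : ℕ) (B : E n → ℝ) (hB : ContDiff ℝ ∞ B) (hc : HasCompactSupport B) :
    ∃ C1 : ℝ, 0 ≤ C1 ∧ ∀ m ≤ M, ∀ x, ‖iteratedFDeriv ℝ m B x‖ ≤ C1 := by
  induction M with
  | zero =>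
    obtain ⟨C, hC⟩ := (hB.continuous_iteratedFDeriv (m := 0)
      (by exact_mod_cast le_top)).bounded_above_of_compact_support (hc.iteratedFDeriv 0)
    refine ⟨C, (norm_nonneg _).trans (hC 0), fun m hm x => ?_⟩
    obtain rfl : m = 0 := by omega
    exact hC x
  | succ M ih =>
    obtain ⟨C1, h0, h1⟩ := ih
    obtain ⟨C, hC⟩ := (hB.continuous_iteratedFDeriv (m := M + 1)
      (by exact_mod_cast le_top)).bounded_above_of_compact_support (hc.iteratedFDeriv (M + 1))
    refine ⟨max C1 C, h0.trans (le_max_left _ _), fun m hm x => ?_⟩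
    rcases Nat.lt_or_ge m (M + 1) with h | h
    · exact (h1 m (by omega) x).trans (le_max_left _ _)
    · obtain rfl : m = M + 1 := by omega
      exact (hC x).trans (le_max_right _ _)

lemma scaled (n m : ℕ) (B : E n → ℝ) (hB : ContDiff ℝ ∞ B) (c : ℝ) (hc : 0 ≤ c) (v : E n)
    (C1 : ℝ) (h0 : 0 ≤ C1) (h : ∀ x, ‖iteratedFDeriv ℝ m B x‖ ≤ C1) (x : E n) :
    ‖iteratedFDeriv ℝ m (fun x => B (c • x - v)) x‖ ≤ c ^ m * C1 := by
  let g : E n →L[ℝ] E n := c • ContinuousLinearMap.id ℝ (E n)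
  have hf : ContDiff ℝ ∞ (fun y : E n => B (y - v)) := hB.comp (contDiff_id.sub contDiff_const)
  have e : (fun x : E n => B (c • x - v)) = (fun y : E n => B (y - v)) ∘ g := by
    funext x; simp [g]
  rw [e, g.iteratedFDeriv_comp_right hf x (i := m) (by exact_mod_cast le_top)]
  refine (ContinuousMultilinearMap.norm_compContinuousLinearMap_le _ _).trans ?_
  rw [iteratedFDeriv_comp_sub]
  have hg : ‖g‖ ≤ c := by
    refine ContinuousLinearMap.opNorm_le_bound _ hc fun y => ?_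
    simp [g, norm_smul, abs_of_nonneg hc]
  rw [Finset.prod_const, Finset.card_univ, Fintype.card_fin, mul_comm]
  exact mul_le_mul (pow_le_pow_left₀ (norm_nonneg _) hg m) (h _) (norm_nonneg _) (by positivity)

theorem atom : S_MOM → S_ATOM := by
  intro hMOM n M N a σ B hB hσ hsupp hVM
  have hcs : HasCompactSupport B := by
    refine HasCompactSupport.intro (compactBox n (fun i => -(σ i : ℝ) - 1)
      (fun i => (2 : ℝ) ^ a - (σ i : ℝ) + 1)) (fun x hx => ?_)
    by_contra hne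
    exact hx (hsupp x hne)
  obtain ⟨C1, h0, h1⟩ := bounds n M B hB hcs
  refine ⟨(C1 + 1) * ((2 : ℝ) ^ a) ^ M, by positivity, fun Q hQ hmod => ?_⟩
  set C : ℝ := (C1 + 1) * ((2 : ℝ) ^ a) ^ M with hC
  have hCpos : 0 < C := by rw [hC]; positivity
  obtain ⟨k, z⟩ := Q
  simp only at hQ hmod
  refine ⟨?_, ?_, ?_, ?_⟩
  · refine contDiff_const.mul (hB.comp ?_)
    unfold dil
    exact (contDiff_id.const_smul _).sub contDiff_const
  · intro x hx i
    have hne : B (dil n (k, z) x) ≠ 0 := right_ne_zero_of_mul hx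
    have hb := hsupp _ hne i
    have hd : (dil n (k, z) x) i = (2 : ℝ) ^ k * x i - z i := by
      simp [dil]
    rw [hd] at hb
    have hz : (z i : ℝ) = (2 : ℝ) ^ a * ((z i / 2 ^ a : ℤ) : ℝ) + σ i := by
      have h2 := Int.mul_ediv_add_emod (z i) (2 ^ a)
      rw [hmod i] at h2
      exact_mod_cast h2.symm
    have hpow : (2 : ℝ) ^ k = (2 : ℝ) ^ a * (2 : ℝ) ^ (k - a) := by
      rw [← pow_add]; congr 1; omega
    have ha1 : (1 : ℝ) ≤ (2 : ℝ) ^ a := one_le_pow₀ (by norm_num)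
    simp only
    set w : ℝ := ((z i / 2 ^ a : ℤ) : ℝ) with hw
    rw [hz, hpow] at hb
    have h3 : (2 : ℝ) ^ a * (w - 1) ≤ (2 : ℝ) ^ a * ((2 : ℝ) ^ (k - a) * x i) := by
      nlinarith [hb.1]
    have h4 : (2 : ℝ) ^ a * ((2 : ℝ) ^ (k - a) * x i) ≤ (2 : ℝ) ^ a * (w + 2) := by
      nlinarith [hb.2]
    have hpos : (0 : ℝ) < (2 : ℝ) ^ a := by positivity
    have h5 := le_of_mul_le_mul_left h3 hpos
    have h6 := le_of_mul_le_mul_left h4 hpos
    rw [abs_le]
    constructor <;> linarith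
  · intro m hm x
    have hs := scaled n m B hB ((2 : ℝ) ^ k) (by positivity)
      (WithLp.toLp 2 (fun i => (z i : ℝ))) C1 h0 (h1 m hm) x
    have hcd : ContDiff ℝ ∞ (fun x : E n => B ((2 : ℝ) ^ k • x -
        WithLp.toLp 2 (fun i => (z i : ℝ)))) :=
      hB.comp ((contDiff_id.const_smul _).sub contDiff_const)
    have e : (fun x : E n => C⁻¹ * B (dil n (k, z) x)) =
        C⁻¹ • (fun x : E n => B ((2 : ℝ) ^ k • x - WithLp.toLp 2 (fun i => (z i : ℝ)))) := by
      funext x; simp [dil]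
    rw [e, iteratedFDeriv_const_smul_apply (hcd.contDiffAt.of_le (by exact_mod_cast le_top)),
      norm_smul, norm_inv, Real.norm_eq_abs, abs_of_pos hCpos]
    simp only
    have hpow : (2 : ℝ) ^ k = (2 : ℝ) ^ a * (2 : ℝ) ^ (k - a) := by
      rw [← pow_add]; congr 1; omega
    have ha1 : (1 : ℝ) ≤ (2 : ℝ) ^ a := one_le_pow₀ (by norm_num)
    rw [inv_mul_le_iff₀ hCpos]
    refine hs.trans ?_
    rw [hpow, mul_pow, hC]
    have h7 : ((2 : ℝ) ^ a) ^ m ≤ ((2 : ℝ) ^ a) ^ M := pow_le_pow_right₀ ha1 hm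
    calc ((2 : ℝ) ^ a) ^ m * ((2 : ℝ) ^ (k - a)) ^ m * C1
        ≤ ((2 : ℝ) ^ a) ^ M * ((2 : ℝ) ^ (k - a)) ^ m * (C1 + 1) := by
          gcongr
          linarith
      _ = (C1 + 1) * ((2 : ℝ) ^ a) ^ M * ((2 : ℝ) ^ (k - a)) ^ m := by ring
  · intro _ β hβ
    set c : ℝ := (2 : ℝ) ^ k with hc
    have hcpos : 0 < c := by rw [hc]; positivity
    set h : E n := WithLp.toLp 2 (fun i => (z i : ℝ)) with hh
    let G : E n → ℝ := fun y => (∏ i, y i ^ β i) * B (y - h)
    have hG : ∫ y, G y = 0 := by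
      have := hMOM n N B hB.continuous hcs (fun β hβ => hVM β hβ.le) β h hβ
      rw [hVM β hβ] at this
      exact this
    have e : (fun x : E n => (∏ i, x i ^ β i) * (C⁻¹ * B (dil n (k, z) x))) =
        fun x => (C⁻¹ * (∏ i, (c⁻¹) ^ β i)) * G (c • x) := by
      funext x
      have e1 : ∏ i, (c • x) i ^ β i = (∏ i, c ^ β i) * ∏ i, x i ^ β i := by
        rw [← Finset.prod_mul_distrib]
        refine Finset.prod_congr rfl fun i _ => ?_
        simp [mul_pow]
      have e2 : (∏ i, (c⁻¹) ^ β i) * (∏ i, c ^ β i) = 1 := by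
        rw [← Finset.prod_mul_distrib]
        refine Finset.prod_eq_one fun i _ => ?_
        rw [← mul_pow, inv_mul_cancel₀ hcpos.ne', one_pow]
      have e3 : dil n (k, z) x = c • x - h := rfl
      simp only [G]
      rw [e1, e3]
      calc (∏ i, x i ^ β i) * (C⁻¹ * B (c • x - h)) =
          C⁻¹ * ((∏ i, (c⁻¹) ^ β i) * (∏ i, c ^ β i)) * (∏ i, x i ^ β i) * B (c • x - h) := by
            rw [e2]; ring
        _ = _ := by ring
    rw [e, integral_const_mul, Measure.integral_comp_smul, hG]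
    simp

end Pool.Agent.W834.BH
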